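import Pool.Agent.Helper76.S7.StC

/-!
# Project W7 (MP_1d384c_nt): module O1 (symbols of odd exponent on the plane)
-/

set_option autoImplicit false

namespace Pool.Agent.Helper47.S7

open Pool.Agent.Helper76.S7 Pool.Agent.Helper14.W5
open Pool.Agent.Helper14.CV (Homog EqC act Tl StFar)
open Pool.Agent.Helper28.WK (SymP)

private lemma seven_pow_z (k : ℕ) : (7 : ZMod (7 ^ k)) ^ k = 0 := by
  have := ZMod.natCast_self (7 ^ k)
  push_cast at this
  exact this

private lemma seven_top {k : ℕ} (hk : 1 ≤ k) : (7 : ZMod (7 ^ k)) ^ (k - 1) * 7 = 0 := by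
  rw [← pow_succ]
  have : k - 1 + 1 = k := by omega
  rw [this, seven_pow_z]

private lemma unit17 (k : ℕ) (y : ZMod (7 ^ k)) : IsUnit (1 + 7 * y) := by
  have h : IsNilpotent (7 * y) := ⟨k, by rw [mul_pow, seven_pow_z, zero_mul]⟩
  exact h.isUnit_one_add

private lemma unit_lin {k : ℕ} {a e t : ℤ} (h : a * e = 1 + 7 * t) (z : ZMod (7 ^ k)) :
    IsUnit ((a : ZMod (7 ^ k)) + 7 * z) := by
  have h1 := unit17 k ((t : ZMod (7 ^ k)) + z * e)
  have e1 : (1 : ZMod (7 ^ k)) + 7 * ((t : ZMod (7 ^ k)) + z * e) =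
      ((a : ZMod (7 ^ k)) + 7 * z) * e := by
    have h3 := congrArg (fun n : ℤ => (n : ZMod (7 ^ k))) h
    push_cast at h3
    linear_combination -h3
  rw [e1] at h1
  exact isUnit_of_mul_isUnit_left h1

private lemma ne1 {a b c d : ℤ} (h1 : a * d - 7 ^ (0 + 1) * b * c = 1) : a ≠ 0 ∨ 7 * c ≠ 0 := by
  by_contra hc
  push Not at hc
  rw [hc.1] at h1
  have : 7 ^ (0 + 1) * b * c = b * (7 * c) := by ring
  rw [this, hc.2] at h1
  norm_num at h1

private lemma ne2 {a b c d : ℤ} (h1 : a * d - 7 ^ (0 + 1) * b * c = 1) : b ≠ 0 ∨ d ≠ 0 := by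
  by_contra hc
  push Not at hc
  rw [hc.1, hc.2] at h1
  norm_num at h1

private lemma ne3 {a b c d : ℤ} (h1 : a * d - 7 ^ (0 + 1) * b * c = 1) :
    a + b * 2 ≠ 0 ∨ 7 * c + d * 2 ≠ 0 := by
  by_contra hc
  push Not at hc
  have : a * d - 7 ^ (0 + 1) * b * c = (a + b * 2) * d - b * (7 * c + d * 2) := by ring
  rw [this, hc.1, hc.2] at h1
  norm_num at h1

/-! ### coordinates -/

private lemma pl_ng {k : ℕ} {p : Pt k} {a b c d : ℤ} (h : Pl7 0 a b c d p.1 p.2) :
    Pl7 0 a (-b) (-c) d (ng p).1 (ng p).2 := by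
  obtain ⟨h1, h2, h3⟩ := h
  refine ⟨by linear_combination h1, ?_, ?_⟩
  · push_cast
    rw [h2]
    simp only [ng]
    ring
  · push_cast
    rw [h3]
    simp only [ng]
    ring

private lemma pl_sw {k : ℕ} {p : Pt k} {a b c d : ℤ} (h : Pl7 0 a b c d p.1 p.2) :
    Pl7 0 d c b a (sw p).1 (sw p).2 := by
  obtain ⟨h1, h2, h3⟩ := h
  exact ⟨by linear_combination h1, h3, h2⟩

private lemma pl_trp {k : ℕ} {p : Pt k} {A B C D a b c d : ℤ} (hM : a * d - 7 * b * c = 1)
    (h : Pl7 0 A B C D p.1 p.2) :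
    Pl7 0 (A * a + 7 * B * c) (A * b + B * d) (C * a + D * c) (7 * C * b + D * d)
      (trp 0 a b c d p).1 (trp 0 a b c d p).2 := by
  obtain ⟨h1, h2, h3⟩ := h
  have u1 : IsUnit ((a : ZMod (7 ^ k)) + 7 ^ (0 + 1) * c * p.1) := by
    have := unit_lin (k := k) (a := a) (e := d) (t := b * c) (by linear_combination hM)
      ((c : ZMod (7 ^ k)) * p.1)
    have e : (a : ZMod (7 ^ k)) + 7 ^ (0 + 1) * c * p.1 = a + 7 * ((c : ZMod (7 ^ k)) * p.1) := by
      ring
    rw [e]
    exact this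
  have u2 : IsUnit ((d : ZMod (7 ^ k)) + 7 ^ (0 + 1) * b * p.2) := by
    have := unit_lin (k := k) (a := d) (e := a) (t := b * c) (by linear_combination hM)
      ((b : ZMod (7 ^ k)) * p.2)
    have e : (d : ZMod (7 ^ k)) + 7 ^ (0 + 1) * b * p.2 = d + 7 * ((b : ZMod (7 ^ k)) * p.2) := by
      ring
    rw [e]
    exact this
  have i1 := ZMod.inv_mul_of_unit _ u1
  have i2 := ZMod.inv_mul_of_unit _ u2
  refine ⟨by linear_combination (a * d - 7 * b * c) * h1 + hM, ?_, ?_⟩
  · simp only [trp]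
    push_cast
    rw [h2]
    linear_combination (-(A : ZMod (7 ^ k)) * (b + d * p.1)) * i1
  · simp only [trp]
    push_cast
    rw [h3]
    linear_combination (-(D : ZMod (7 ^ k)) * (c + a * p.2)) * i2

private lemma pl_dR {k : ℕ} {p : Pt k} {a b c d : ℤ} (h : Pl7 0 a b c d p.1 p.2) :
    Pl7 0 a (-a - b) (-c) (7 * c + d) (dR 0 p).1 (dR 0 p).2 := by
  have h1 := pl_trp (a := 1) (b := -1) (c := 0) (d := 1) (by norm_num) (pl_ng h)
  have e1 : a * 1 + 7 * -b * 0 = a := by ring
  have e2 : a * -1 + -b * 1 = -a - b := by ring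
  have e3 : -c * 1 + d * 0 = -c := by ring
  have e4 : 7 * -c * -1 + d * 1 = 7 * c + d := by ring
  rw [e1, e2, e3, e4] at h1
  exact h1

private lemma pl_cO {k : ℕ} {p : Pt k} {a b c d : ℤ} (h : Pl7 0 a b c d p.1 p.2) :
    Pl7 0 (7 * c + 2 * d) (-(d + 3 * c)) (a + 2 * b) (-(3 * a + 7 * b)) (cO p).1 (cO p).2 := by
  have h1 := pl_trp (a := 2) (b := -1) (c := 1) (d := -3) (by norm_num) (pl_sw h)
  have e1 : d * 2 + 7 * c * 1 = 7 * c + 2 * d := by ring
  have e2 : d * -1 + c * -3 = -(d + 3 * c) := by ring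
  have e3 : b * 2 + a * 1 = a + 2 * b := by ring
  have e4 : 7 * b * -1 + a * -3 = -(3 * a + 7 * b) := by ring
  rw [e1, e2, e3, e4] at h1
  exact h1

theorem hO1 (he : S7Edg) (ha : S7PlA) (_ht : S7Typ) (hfar : Pool.Agent.Helper14.CV.StFar) :
    S7O1 := by
  intro k G hk hG
  obtain ⟨hS, hP1, hP2, hW, hst⟩ := hG
  have hom := hS.1
  have neg : ∀ p q : ℤ, (p ≠ 0 ∨ q ≠ 0) → G (-p) (-q) = G p q := by
    intro p q hpq
    have := hom (-1) p q (by norm_num) hpq
    rw [← this]
    congr 1 <;> ring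
  -- values at all nonzero paths
  have val : ∀ (u1 u2 v1 v2 : ℤ), (u1 ≠ 0 ∨ u2 ≠ 0) → (v1 ≠ 0 ∨ v2 ≠ 0) →
      ∀ (x y : ZMod (7 ^ k)) (a b c d : ℤ), Pl7 0 a b c d x y →
      edge7 0 u1 u2 v1 v2 G x y = G (a * u1 + b * u2) (7 * c * u1 + d * u2) -
        G (a * v1 + b * v2) (7 * c * v1 + d * v2) := by
    intro u1 u2 v1 v2 hu hv x y a b c d h
    have := he ℂ inferInstance 0 k k G hS u1 u2 v1 v2 hu hv x y a b c d h
    simpa using this
  have vf : ∀ (p : Pt k) (a b c d : ℤ), Pl7 0 a b c d p.1 p.2 →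
      edge7 0 1 0 0 1 G p.1 p.2 = G a (7 * c) - G b d := by
    intro p a b c d h
    have := val 1 0 0 1 (Or.inl one_ne_zero) (Or.inr one_ne_zero) _ _ a b c d h
    simpa using this
  have vl : ∀ (p : Pt k) (a b c d : ℤ), Pl7 0 a b c d p.1 p.2 →
      edge7 0 1 0 1 2 G p.1 p.2 = G a (7 * c) - G (a + b * 2) (7 * c + d * 2) := by
    intro p a b c d h
    have := val 1 0 1 2 (Or.inl one_ne_zero) (Or.inl one_ne_zero) _ _ a b c d h
    simpa using this
  -- sums over translates
  have anti : ∀ (u1 u2 v1 v2 : ℤ), (u1 ≠ 0 ∨ u2 ≠ 0) → (v1 ≠ 0 ∨ v2 ≠ 0) →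
      (fun p : Pt k => edge7 0 u1 u2 v1 v2 G p.1 p.2) ∈ anti7 k := by
    intro u1 u2 v1 v2 hu hv p
    obtain ⟨x, y⟩ := p
    have h0 := ha 0 k k x y
    obtain ⟨h1, h2, h3⟩ := h0
    have hz := seven_top hk
    have hz' := seven_pow_z k
    set X : ℤ := (x.val : ℤ) with hX
    set Y : ℤ := rY7 0 x y with hY
    set D : ℤ := 1 + 7 ^ (0 + 1) * X * Y with hD
    -- the images of the vectors
    have hne : ∀ w1 w2 : ℤ, (w1 ≠ 0 ∨ w2 ≠ 0) →
        (1 * w1 + X * w2 ≠ 0 ∨ 7 * Y * w1 + D * w2 ≠ 0) := by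
      intro w1 w2 hw
      exact Pool.Agent.Helper14.CV.ne_zero_of_det (a := 1) (b := X) (c := 7 * Y) (d := D)
        (by
          have : 1 * D - X * (7 * Y) = 1 := by linear_combination h1
          rw [this]
          exact one_ne_zero) hw
    constructor
    · have hpl : ∀ i : ℕ, Pl7 0 (1 + i * 7 ^ (k - 1) * (7 * Y)) (X + i * 7 ^ (k - 1) * D) Y D
          (x + (i : ZMod (7 ^ k)) * 7 ^ (k - 1)) y := by
        intro i
        refine ⟨by linear_combination h1, ?_, h3⟩
        push_cast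
        rw [h2, hD]
        push_cast
        linear_combination ((i : ZMod (7 ^ k)) * X * Y -
          (x + (i : ZMod (7 ^ k)) * 7 ^ (k - 1)) * i * Y) * hz
      have e := hP1.diff (hne u1 u2 hu) (hne v1 v2 hv)
      simp only [Finset.sum_apply, act, Pi.zero_apply, sub_self] at e
      rw [← Finset.sum_sub_distrib] at e
      refine (Finset.sum_congr rfl fun i _ => ?_).trans e
      show edge7 0 u1 u2 v1 v2 G (x + (i : ZMod (7 ^ k)) * 7 ^ (k - 1)) y = _
      rw [val u1 u2 v1 v2 hu hv _ _ _ _ _ _ (hpl i)]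
      congr 2 <;> ring
    · have hpl : ∀ i : ℕ, Pl7 0 1 X (Y + i * 7 ^ (k - 1)) (D + i * 7 ^ k * X) x
          (y + (i : ZMod (7 ^ k)) * 7 ^ (k - 1)) := by
        intro i
        have h7 : (7 : ℤ) ^ k = 7 ^ (k - 1) * 7 := by
          rw [← pow_succ]
          congr 1
          omega
        refine ⟨by rw [h7]; linear_combination h1, h2, ?_⟩
        push_cast
        rw [h3, hD]
        push_cast
        linear_combination (-(y + (i : ZMod (7 ^ k)) * 7 ^ (k - 1)) * i * X) * hz' -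
          ((i : ZMod (7 ^ k)) * X * Y) * hz
      have e := hP2.diff (hne u1 u2 hu) (hne v1 v2 hv)
      simp only [Finset.sum_apply, act, Pi.zero_apply, sub_self] at e
      rw [← Finset.sum_sub_distrib] at e
      refine (Finset.sum_congr rfl fun i _ => ?_).trans e
      show edge7 0 u1 u2 v1 v2 G x (y + (i : ZMod (7 ^ k)) * 7 ^ (k - 1)) = _
      rw [val u1 u2 v1 v2 hu hv _ _ _ _ _ _ (hpl i)]
      have h7 : (7 : ℤ) ^ k = 7 ^ (k - 1) * 7 := by
        rw [← pow_succ]
        congr 1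
        omega
      rw [h7]
      congr 2 <;> ring
  have exP : ∀ p : Pt k, ∃ a b c d : ℤ, Pl7 0 a b c d p.1 p.2 := fun p =>
    ⟨_, _, _, _, ha 0 k k p.1 p.2⟩
  -- the reflection in the imaginary axis, in coordinates of vectors
  have hs : ∀ p q p' q' : ℤ, (p ≠ 0 ∨ q ≠ 0) → (p' ≠ 0 ∨ q' ≠ 0) →
      G (-p) q - G (-p') q' = G p q - G p' q' := by
    intro p q p' q' h h'
    have e := hst.diff h h'
    unfold act at e
    have e1 : G (-1 * p + 0 * q) (0 * p + 1 * q) = G (-p) q := by congr 1 <;> ring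
    have e2 : G (-1 * p' + 0 * q') (0 * p' + 1 * q') = G (-p') q' := by congr 1 <;> ring
    rw [e1, e2] at e
    exact e
  have hw : ∀ p q p' q' : ℤ, (p ≠ 0 ∨ q ≠ 0) → (p' ≠ 0 ∨ q' ≠ 0) →
      G q (7 * p) - G q' (7 * p') = G p' q' - G p q := by
    intro p q p' q' h h'
    have e := hW.diff h h'
    unfold act at e
    have e1 : G (0 * p + -1 * q) (7 * p + 0 * q) = G (-q) (7 * p) := by congr 1 <;> ring
    have e2 : G (0 * p' + -1 * q') (7 * p' + 0 * q') = G (-q') (7 * p') := by congr 1 <;> ring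
    rw [e1, e2, hs q (7 * p) q' (7 * p')
      (by rcases h with h | h
          · exact Or.inr (mul_ne_zero (by norm_num) h)
          · exact Or.inl h)
      (by rcases h' with h | h
          · exact Or.inr (mul_ne_zero (by norm_num) h)
          · exact Or.inl h)] at e
    simp only [Pi.neg_apply] at e
    rw [e]
    ring
  have h7h : ∀ p q : ℤ, (p ≠ 0 ∨ q ≠ 0) → G (7 * p) (7 * q) = G p q := fun p q h =>
    hom 7 p q (by norm_num) h
  refine ⟨⟨⟨anti 1 0 0 1 (Or.inl one_ne_zero) (Or.inr one_ne_zero), fun p => ?_⟩,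
    ⟨anti 1 0 1 2 (Or.inl one_ne_zero) (Or.inl one_ne_zero), fun p => ?_⟩, fun p => ?_⟩, ?_⟩
  · -- f
    obtain ⟨a, b, c, d, h⟩ := exP p
    have n1 := ne1 h.1
    have n2 := ne2 h.1
    rw [one_mul]
    refine ⟨?_, ?_⟩
    · show edge7 0 1 0 0 1 G (ng p).1 (ng p).2 = edge7 0 1 0 0 1 G p.1 p.2
      rw [vf _ _ _ _ _ (pl_ng h), vf _ _ _ _ _ h]
      have e := hs a (7 * c) b d n1 n2
      have e1 : G a (7 * -c) = G (-a) (7 * c) := by
        have := neg (-a) (7 * c) (by
          rcases n1 with h | h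
          · exact Or.inl (neg_ne_zero.2 h)
          · exact Or.inr h)
        rw [← this]
        congr 1 <;> ring
      rw [e1, e]
    · show edge7 0 1 0 0 1 G (sw p).1 (sw p).2 = edge7 0 1 0 0 1 G p.1 p.2
      rw [vf _ _ _ _ _ (pl_sw h), vf _ _ _ _ _ h]
      have e := hw b d a (7 * c) n2 n1
      rw [h7h c a (by
        rcases n1 with h | h
        · exact Or.inr h
        · left
          intro h'
          apply h
          rw [h', mul_zero])] at e
      exact e
  · -- l
    obtain ⟨a, b, c, d, h⟩ := exP p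
    have n1 := ne1 h.1
    have n3 := ne3 h.1
    rw [one_mul]
    refine ⟨?_, ?_⟩
    · show edge7 0 1 0 1 2 G (dR 0 p).1 (dR 0 p).2 = edge7 0 1 0 1 2 G p.1 p.2
      rw [vl _ _ _ _ _ (pl_dR h), vl _ _ _ _ _ h]
      have e := hs a (7 * c) (a + b * 2) (7 * c + d * 2) n1 n3
      have e1 : G a (7 * -c) = G (-a) (7 * c) := by
        have := neg (-a) (7 * c) (by
          rcases n1 with h | h
          · exact Or.inl (neg_ne_zero.2 h)
          · exact Or.inr h)
        rw [← this]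
        congr 1 <;> ring
      have e2 : G (a + (-a - b) * 2) (7 * -c + (7 * c + d) * 2) =
          G (-(a + b * 2)) (7 * c + d * 2) := by
        congr 1 <;> ring
      rw [e1, e2, e]
    · show edge7 0 1 0 1 2 G (cO p).1 (cO p).2 = edge7 0 1 0 1 2 G p.1 p.2
      rw [vl _ _ _ _ _ (pl_cO h), vl _ _ _ _ _ h]
      have e := hw (a + b * 2) (7 * c + d * 2) a (7 * c) n3 n1
      rw [h7h c a (by
        rcases n1 with h | h
        · exact Or.inr h
        · left
          intro h'
          apply h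
          rw [h', mul_zero])] at e
      have e1 : G (7 * c + 2 * d) (7 * (a + 2 * b)) = G (7 * c + d * 2) (7 * (a + b * 2)) := by
        congr 1 <;> ring
      have e2 : G (7 * c + 2 * d + -(d + 3 * c) * 2) (7 * (a + 2 * b) + -(3 * a + 7 * b) * 2) =
          G c a := by
        congr 1 <;> ring
      rw [e1, e2, e]
  · -- the relation
    obtain ⟨a, b, c, d, h⟩ := exP p
    have n2 := ne2 h.1
    have n4 : a + 3 * b ≠ 0 ∨ 7 * c + 3 * d ≠ 0 := by
      by_contra hc
      push Not at hc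
      have h1 := h.1
      have : a * d - 7 ^ (0 + 1) * b * c = (a + 3 * b) * d - b * (7 * c + 3 * d) := by ring
      rw [this, hc.1, hc.2] at h1
      norm_num at h1
    have h' := pl_sw (pl_cO h)
    have h'' := pl_cO (pl_sw h)
    show (edge7 0 1 0 0 1 G p.1 p.2 - edge7 0 1 0 1 2 G p.1 p.2) +
      (edge7 0 1 0 0 1 G (sw (cO p)).1 (sw (cO p)).2 -
        edge7 0 1 0 1 2 G (sw (cO p)).1 (sw (cO p)).2) +
      (edge7 0 1 0 0 1 G (cO (sw p)).1 (cO (sw p)).2 -
        edge7 0 1 0 1 2 G (cO (sw p)).1 (cO (sw p)).2) = 0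
    rw [vf _ _ _ _ _ h, vl _ _ _ _ _ h, vf _ _ _ _ _ h', vl _ _ _ _ _ h',
      vf _ _ _ _ _ h'', vl _ _ _ _ _ h'']
    have e1 : G (-(3 * a + 7 * b) + (a + 2 * b) * 2) (7 * -(d + 3 * c) + (7 * c + 2 * d) * 2) =
        G (a + 3 * b) (7 * c + 3 * d) := by
      have := neg (a + 3 * b) (7 * c + 3 * d) n4
      rw [← this]
      congr 1 <;> ring
    have e2 : G (a + 2 * b) (7 * c + 2 * d) = G (a + b * 2) (7 * c + d * 2) := by
      congr 1 <;> ring
    have e3 : G (7 * b + 2 * a + -(a + 3 * b) * 2) (7 * (d + 2 * c) + -(3 * d + 7 * c) * 2) =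
        G b d := by
      congr 1 <;> ring
    have e4 : G (-(a + 3 * b)) (-(3 * d + 7 * c)) = G (a + 3 * b) (7 * c + 3 * d) := by
      have := neg (a + 3 * b) (7 * c + 3 * d) n4
      rw [← this]
      congr 1; ring
    rw [e1, e2, e3, e4]
    ring
  · -- injectivity
    intro h0
    have exC : ∀ a b c d : ℤ, a * d - 7 * b * c = 1 → ∃ p : Pt k, Pl7 0 a b c d p.1 p.2 := by
      intro a b c d h
      have ua := unit_lin (k := k) (a := a) (e := d) (t := b * c) (by linear_combination h) 0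
      have ud := unit_lin (k := k) (a := d) (e := a) (t := b * c) (by linear_combination h) 0
      rw [mul_zero, add_zero] at ua ud
      refine ⟨((b : ZMod (7 ^ k)) * ((a : ZMod (7 ^ k)))⁻¹,
        (c : ZMod (7 ^ k)) * ((d : ZMod (7 ^ k)))⁻¹), by linear_combination h, ?_, ?_⟩
      · show (b : ZMod (7 ^ k)) = (b : ZMod (7 ^ k)) * ((a : ZMod (7 ^ k)))⁻¹ * a
        rw [mul_assoc, ZMod.inv_mul_of_unit _ ua, mul_one]
      · show (c : ZMod (7 ^ k)) = (c : ZMod (7 ^ k)) * ((d : ZMod (7 ^ k)))⁻¹ * d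
        rw [mul_assoc, ZMod.inv_mul_of_unit _ ud, mul_one]
    have keyf : ∀ a b c d : ℤ, a * d - 7 * b * c = 1 → G a (7 * c) = G b d := by
      intro a b c d h
      obtain ⟨p, hp⟩ := exC a b c d h
      have e := vf p a b c d hp
      rw [(h0 p.1 p.2).1] at e
      exact sub_eq_zero.1 e.symm
    have keyl : ∀ a b c d : ℤ, a * d - 7 * b * c = 1 →
        G a (7 * c) = G (a + b * 2) (7 * c + d * 2) := by
      intro a b c d h
      obtain ⟨p, hp⟩ := exC a b c d h
      have e := vl p a b c d hp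
      rw [(h0 p.1 p.2).2] at e
      exact sub_eq_zero.1 e.symm
    have keyr : ∀ a b c d : ℤ, a * d - 7 * b * c = 1 →
        G a (7 * c) = G (a - b * 2) (7 * c - d * 2) := by
      intro a b c d h
      have h1 := keyl a (-b) (-c) d (by linear_combination h)
      have n1 : a ≠ 0 ∨ 7 * c ≠ 0 := ne1 (b := b) (d := d) (by linear_combination h)
      have n5 : a - b * 2 ≠ 0 ∨ 7 * c - d * 2 ≠ 0 := by
        by_contra hc
        push Not at hc
        have : a * d - 7 * b * c = (a - b * 2) * d - b * (7 * c - d * 2) := by ring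
        rw [this, hc.1, hc.2] at h
        norm_num at h
      have e := hs a (7 * c) (a - b * 2) (7 * c - d * 2) n1 n5
      have e1 : G a (7 * -c) = G (-a) (7 * c) := by
        have := neg (-a) (7 * c) (by
          rcases n1 with h | h
          · exact Or.inl (neg_ne_zero.2 h)
          · exact Or.inr h)
        rw [← this]
        congr 1 <;> ring
      have e2 : G (a + -b * 2) (7 * -c + d * 2) = G (-(a - b * 2)) (7 * c - d * 2) := by
        have := neg (-(a - b * 2)) (7 * c - d * 2) (by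
          rcases n5 with h | h
          · exact Or.inl (neg_ne_zero.2 h)
          · exact Or.inr h)
        rw [← this]
        congr 1 <;> ring
      rw [e1, e2] at h1
      rw [h1, sub_self] at e
      exact sub_eq_zero.1 e.symm
    apply hfar ℂ inferInstance G hom
    intro a b c d h
    have hac : a ≠ 0 ∨ c ≠ 0 := by
      by_contra hc
      push Not at hc
      rw [hc.1, hc.2] at h
      norm_num at h
    have hcases : (7 : ℤ) ∣ c ∨ (7 : ℤ) ∣ d ∨ (7 : ℤ) ∣ c + d ∨ (7 : ℤ) ∣ c - d ∨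
        (7 : ℤ) ∣ c - 2 * d ∨ (7 : ℤ) ∣ 2 * c - d ∨ (7 : ℤ) ∣ c + 2 * d ∨ (7 : ℤ) ∣ 2 * c + d := by
      have h7 : c % 7 = 0 ∨ c % 7 = 1 ∨ c % 7 = 2 ∨ c % 7 = 3 ∨ c % 7 = 4 ∨ c % 7 = 5 ∨
          c % 7 = 6 := by omega
      have h8 : d % 7 = 0 ∨ d % 7 = 1 ∨ d % 7 = 2 ∨ d % 7 = 3 ∨ d % 7 = 4 ∨ d % 7 = 5 ∨
          d % 7 = 6 := by omega
      rcases h7 with h7 | h7 | h7 | h7 | h7 | h7 | h7 <;>
        rcases h8 with h8 | h8 | h8 | h8 | h8 | h8 | h8 <;> omega
    rcases hcases with hc | hc | hc | hc | hc | hc | hc | hc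
    · obtain ⟨c', rfl⟩ := hc
      exact keyf a b c' d (by linear_combination h)
    · obtain ⟨d', rfl⟩ := hc
      have := keyf b (-a) d' (-c) (by linear_combination h)
      rw [this, neg a c hac]
    · obtain ⟨e', he'⟩ := hc
      have k1 := keyf (a + b) b e' d (by linear_combination h + b * he')
      have k2 := keyf (a + b) (-a) e' (-c) (by linear_combination h - a * he')
      rw [← k1, k2, neg a c hac]
    · obtain ⟨e', he'⟩ := hc
      have k1 := keyf (a - b) b e' d (by linear_combination h + b * he')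
      have k2 := keyf (a - b) a e' c (by linear_combination h + a * he')
      rw [← k1, k2]
    · obtain ⟨e', he'⟩ := hc
      have k1 := keyf (a - 2 * b) b e' d (by linear_combination h + b * he')
      have k2 := keyl (a - 2 * b) b e' d (by linear_combination h + b * he')
      have e1 : G (a - 2 * b + b * 2) (7 * e' + d * 2) = G a c := by
        rw [← he']
        congr 1 <;> ring
      rw [← k1, k2, e1]
    · obtain ⟨e', he'⟩ := hc
      have k1 := keyf (2 * a - b) a e' c (by linear_combination h + a * he')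
      have k2 := keyl (2 * a - b) (b - a) e' (d - c) (by linear_combination h + (b - a) * he')
      have e1 : G (2 * a - b + (b - a) * 2) (7 * e' + (d - c) * 2) = G b d := by
        rw [← he']
        congr 1 <;> ring
      rw [← k1, k2, e1]
    · obtain ⟨e', he'⟩ := hc
      have k1 := keyf (a + 2 * b) b e' d (by linear_combination h + b * he')
      have k2 := keyr (a + 2 * b) b e' d (by linear_combination h + b * he')
      have e1 : G (a + 2 * b - b * 2) (7 * e' - d * 2) = G a c := by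
        rw [← he']
        congr 1 <;> ring
      rw [← k1, k2, e1]
    · obtain ⟨e', he'⟩ := hc
      have k1 := keyf (2 * a + b) (-a) e' (-c) (by linear_combination h - a * he')
      have k2 := keyr (2 * a + b) (a + b) e' (c + d) (by linear_combination h + (a + b) * he')
      have hbd : b ≠ 0 ∨ d ≠ 0 := by
        by_contra hc
        push Not at hc
        rw [hc.1, hc.2] at h
        norm_num at h
      have e1 : G (2 * a + b - (a + b) * 2) (7 * e' - (c + d) * 2) = G b d := by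
        rw [← he', ← neg b d hbd]
        congr 1 <;> ring
      have e2 := neg a c hac
      rw [← e2, ← k1, k2, e1]

end Pool.Agent.Helper47.S7
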